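import Pool.Agent.H20.Oh5

set_option autoImplicit false

namespace Pool.Agent.Results.MP_a09be5_co.Lower

open H20.Oh

theorem result (a b p t : ℕ) (ha : 2 ≤ a) (hp : 1 ≤ p) (h1 : t + 2 ≤ p * (a - 1))
    (h2 : p * (t + 2) + 1 ≤ b) : t < tau 0 a b := by
  obtain ⟨C, hC⟩ := upper a 1 (by omega)
  rw [tau_eq 0 a b (by omega) (by omega)]
  have hne : {t | Choosable (JG t a b) (t + (0 + 1) + 1)}.Nonempty :=
    ⟨C * b + 1, hC _ b (by omega)
      (lt_of_lt_of_le (Nat.lt_succ_self _) (Nat.le_self_pow (by omega) _))⟩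
  by_contra e
  have hle := not_lt.mp e
  exact lower2 a b p _ hp (by omega)
    (le_trans (Nat.succ_le_succ (Nat.mul_le_mul_left p (by omega))) h2) (Nat.sInf_mem hne)

end Pool.Agent.Results.MP_a09be5_co.Lower
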